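import Pool.Agent.H530.HzW

/-!
# Almost prime pairs `p`, `(p + 1) / 2` in `[N, 2 N]`: progressions and distances with prescribed parities

Let `N` be large, `y ^ K ≤ N`, and let `pairs y N` be the set of the `q = (p + 1) / 2` with `N ≤ p ≤ 2 N` such that neither
`p = 2 q - 1` nor `q` has a prime factor `≤ y`. Put `δ = 2 ^ (-⌊K / A⌋)`. For EVERY large `N`:

* `p` and `q` have an odd number of prime factors for half of the pairs each, up to `δ`;
* the number of the three-term progressions of such pairs in the window has the right order of magnitude; if at each of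
  the three pairs one of the members `p`, `q` is chosen, all eight patterns of the parities of their numbers of
  prime factors have share `1 / 8`, up to `δ`;
* for arbitrary subsets at both ends (for example the true prime pairs) both parities are equally frequent in the middle;
* all multiples `h` of `6`, `h ≤ N / 4`, are differences of two of the `q`, in the right order of magnitude, and for
  all but `δ N` of them all four patterns of parities have share `1 / 4`, up to `δ`.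
-/

set_option autoImplicit false

namespace Pool.Agent.Results.MP_39a890_nt.EightPatternsInEveryWindow

open Finset

open Classical in
/-- the `q` with `N ≤ 2 q - 1 ≤ 2 N` for which neither `q` nor `2 q - 1` has a prime factor up to `y` -/
noncomputable def pairs (y N : ℕ) : Finset ℕ :=
  (Icc 1 N).filter (fun q => N ≤ 2 * q - 1 ∧ 2 * q - 1 ≤ 2 * N ∧
    ∀ p : ℕ, p.Prime → p ≤ y → ¬ p ∣ q ∧ ¬ p ∣ 2 * q - 1)

/-- the member `2 q - 1` (`b` true) or `q` (`b` false) -/
def member (b : Bool) (q : ℕ) : ℕ := if b then 2 * q - 1 else q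

/-- the number of prime factors is odd (`s` true) or even (`s` false) -/
def Par (s : Bool) (m : ℕ) : Prop := Odd (ArithmeticFunction.cardFactors m) ↔ s = true

open Classical in
/-- the progressions, with difference of either sign: the `(q₁, q₃, q₂)` with `q₁ + q₃ = 2 q₂` -/
noncomputable def progs (y N : ℕ) : Finset (ℕ × ℕ × ℕ) :=
  (pairs y N ×ˢ pairs y N ×ˢ pairs y N).filter (fun t => t.1 + t.2.1 = 2 * t.2.2)

open Classical in
/-- the progressions for which the chosen members have the parities `s₁`, `s₂`, `s₃` -/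
noncomputable def pattern (y N : ℕ) (b₁ b₂ b₃ s₁ s₂ s₃ : Bool) : Finset (ℕ × ℕ × ℕ) :=
  (progs y N).filter (fun t => Par s₁ (member b₁ t.1) ∧ Par s₃ (member b₃ t.2.1) ∧ Par s₂ (member b₂ t.2.2))

open Classical in
/-- the progressions with `q₁ ∈ S₁`, `q₃ ∈ S₃` for which the chosen member in the middle has the parity `s` -/
noncomputable def within (y N : ℕ) (S₁ S₃ : Finset ℕ) (b s : Bool) : Finset (ℕ × ℕ × ℕ) :=
  (progs y N).filter (fun t => t.1 ∈ S₁ ∧ t.2.1 ∈ S₃ ∧ Par s (member b t.2.2))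

open Classical in
/-- the `q` for which `q` and `q + h` belong to the set -/
noncomputable def dist (y N h : ℕ) : Finset ℕ := (pairs y N).filter (fun q => q + h ∈ pairs y N)

open Classical in
/-- with prescribed parities -/
noncomputable def distPat (y N h : ℕ) (b₁ b₂ s₁ s₂ : Bool) : Finset ℕ :=
  (dist y N h).filter (fun q => Par s₁ (member b₁ q) ∧ Par s₂ (member b₂ (q + h)))

open Pool.Agent.H530.Ha hiding ind sg
open Pool.Agent.H530.Hz

/-- the coefficients -/
def AA : Fin 2 → ℤ := ![1, 2]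

/-- the shifts -/
def BB (Z : ℕ) : Fin 2 → ℤ := ![(Z : ℤ), 2 * Z - 1]

lemma adz (Z : ℕ) : AdZ AA (BB Z) := by
  intro p hp
  have h1 : ¬ (p : ℤ) ∣ 1 := by
    intro h
    have h2 : p ∣ 1 := by exact_mod_cast h
    exact hp.one_lt.ne' (Nat.dvd_one.1 h2)
  refine ⟨1 - Z, fun j => ?_⟩
  fin_cases j
  · simpa [AA, BB] using h1
  · have e : AA ((fun i => i) ⟨1, by norm_num⟩) * (1 - (Z : ℤ)) + BB Z ((fun i => i) ⟨1, by norm_num⟩) = 1 := by
      simp [AA, BB]
      ring
    rw [e]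
    exact h1

/-- the sieve -/
def QQ (N : ℕ) : ℕ → ℕ → Prop := QZ AA (BB (N / 2))

lemma svq (N : ℕ) : Sv 2 (QQ N) := sv_QZ (adz (N / 2))

/-- the shifted set -/
noncomputable def RR (y N : ℕ) : Finset ℕ := RQ (QQ N) (N - N / 2) y

open Pool.Agent.H373R2.T7 in
lemma mem_pairs {y N n : ℕ} : n + N / 2 ∈ pairs y N ↔ n ∈ RR y N := by
  classical
  unfold RR pairs
  rw [mem_RQ, mem_filter, mem_Icc]
  have key : (∀ p : ℕ, p.Prime → p ≤ y → ¬ p ∣ n + N / 2 ∧ ¬ p ∣ 2 * (n + N / 2) - 1) ∧ 1 ≤ n + N / 2 ↔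
      (∀ p ∈ Pool.Agent.H373R2.T7.pz y, ¬ QQ N p n) ∧ 1 ≤ n + N / 2 := by
    apply and_congr_left
    intro hn
    have e1 : ((2 * (n + N / 2) - 1 : ℕ) : ℤ) = 2 * n + (2 * ((N / 2 : ℕ) : ℤ) - 1) := by omega
    constructor
    · intro h p hp
      obtain ⟨h1, h2⟩ := h p (mem_pz.1 hp).2 (mem_pz.1 hp).1
      rintro ⟨j, hj⟩
      fin_cases j
      · apply h1
        have : (p : ℤ) ∣ ((n + N / 2 : ℕ) : ℤ) := by simpa [AA, BB] using hj
        exact_mod_cast this
      · apply h2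
        have h3 : (p : ℤ) ∣ ((2 * (n + N / 2) - 1 : ℕ) : ℤ) := by
          rw [e1]
          simpa [AA, BB] using hj
        exact_mod_cast h3
    · intro h p hp hpy
      have h1 := h p (mem_pz.2 ⟨hpy, hp⟩)
      constructor
      · intro hd
        apply h1
        refine ⟨0, ?_⟩
        have h3 : (p : ℤ) ∣ ((n + N / 2 : ℕ) : ℤ) := by exact_mod_cast hd
        simpa [AA, BB] using h3
      · intro hd
        apply h1
        refine ⟨1, ?_⟩
        have h3 : (p : ℤ) ∣ ((2 * (n + N / 2) - 1 : ℕ) : ℤ) := by exact_mod_cast hd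
        rw [e1] at h3
        simpa [AA, BB] using h3
  constructor
  · rintro ⟨h1, h2, h3, h4⟩
    exact ⟨by omega, (key.1 ⟨h4, by omega⟩).1⟩
  · rintro ⟨h1, h2⟩
    exact ⟨by omega, by omega, by omega, (key.2 ⟨h2, by omega⟩).1⟩

lemma of_mem {y N q : ℕ} (h : q ∈ pairs y N) : ∃ n, q = n + N / 2 := by
  classical
  unfold pairs at h
  rw [mem_filter, mem_Icc] at h
  exact ⟨q - N / 2, by omega⟩

lemma card3 {y N : ℕ} (P : ℕ → ℕ → ℕ → Prop) {A B : Finset (ℕ × ℕ × ℕ)}
    (hA : ∀ t, t ∈ A ↔ t ∈ progs y N ∧ P t.1 t.2.1 t.2.2)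
    (hB : ∀ t, t ∈ B ↔ t ∈ rep3 (RR y N) (RR y N) (RR y N) 1 1 (-2) 0 ∧ P (t.1 + N / 2) (t.2.1 + N / 2) (t.2.2 + N / 2)) :
    A.card = B.card := by
  classical
  symm
  apply card_bij (fun t _ => (t.1 + N / 2, t.2.1 + N / 2, t.2.2 + N / 2))
  · rintro ⟨a, b, c⟩ h
    rw [hB] at h
    unfold rep3 at h
    rw [mem_filter, mem_product, mem_product] at h
    obtain ⟨⟨⟨h1, h2, h3⟩, h4⟩, h5⟩ := h
    simp only at h1 h2 h3 h4 h5 ⊢
    rw [hA]
    unfold progs
    rw [mem_filter, mem_product, mem_product]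
    refine ⟨⟨⟨mem_pairs.2 h1, mem_pairs.2 h2, mem_pairs.2 h3⟩, ?_⟩, h5⟩
    simp only
    omega
  · rintro ⟨a, b, c⟩ _ ⟨a', b', c'⟩ _ h
    simp only [Prod.mk.injEq] at h ⊢
    omega
  · rintro ⟨a, b, c⟩ h
    rw [hA] at h
    unfold progs at h
    rw [mem_filter, mem_product, mem_product] at h
    obtain ⟨⟨⟨h1, h2, h3⟩, h4⟩, h5⟩ := h
    simp only at h1 h2 h3 h4 h5
    obtain ⟨a', rfl⟩ := of_mem h1
    obtain ⟨b', rfl⟩ := of_mem h2
    obtain ⟨c', rfl⟩ := of_mem h3
    refine ⟨(a', b', c'), ?_, rfl⟩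
    rw [hB]
    unfold rep3
    rw [mem_filter, mem_product, mem_product]
    refine ⟨⟨⟨mem_pairs.1 h1, mem_pairs.1 h2, mem_pairs.1 h3⟩, ?_⟩, h5⟩
    simp only
    omega

lemma card1 {y N : ℕ} (P : ℕ → Prop) {A B : Finset ℕ} (hA : ∀ q, q ∈ A ↔ q ∈ pairs y N ∧ P q)
    (hB : ∀ n, n ∈ B ↔ n ∈ RR y N ∧ P (n + N / 2)) : A.card = B.card := by
  symm
  apply card_bij (fun n _ => n + N / 2)
  · intro n h
    rw [hB] at h
    rw [hA]
    exact ⟨mem_pairs.2 h.1, h.2⟩
  · intro n _ m _ h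
    omega
  · intro q h
    rw [hA] at h
    obtain ⟨n, rfl⟩ := of_mem h.1
    exact ⟨n, (hB n).2 ⟨mem_pairs.1 h.1, h.2⟩, rfl⟩

/-- the linear forms -/
def lf (N : ℕ) (b : Bool) (n : ℕ) : ℤ := (if b then 2 else 1) * n + (if b then 2 * ((N / 2 : ℕ) : ℤ) - 1 else ((N / 2 : ℕ) : ℤ))

lemma lf_eq {N n : ℕ} (b : Bool) (h : 1 ≤ n) : lf N b n = ((member b (n + N / 2) : ℕ) : ℤ) := by
  unfold lf member
  cases b
  · simp
  · simp only [if_true]
    omega

lemma lf_ll {N : ℕ} (b : Bool) (hlog : 4 ≤ Real.log ((N - N / 2 : ℕ) : ℝ)) : Ll (N - N / 2) 1 2 (lf N b) := by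
  refine ⟨if b then 2 else 1, if b then 2 * ((N / 2 : ℕ) : ℤ) - 1 else ((N / 2 : ℕ) : ℤ), ?_, ?_, ?_, fun n => rfl⟩
  · cases b <;> norm_num
  · cases b <;> norm_num
  · have h0 : N / 2 ≤ N - N / 2 := by omega
    have h1 : ((N / 2 : ℕ) : ℝ) ≤ ((N - N / 2 : ℕ) : ℝ) := by exact_mod_cast h0
    have h2 : (0 : ℝ) ≤ ((N / 2 : ℕ) : ℝ) := Nat.cast_nonneg _
    have h3 : |(((if b then 2 * ((N / 2 : ℕ) : ℤ) - 1 else ((N / 2 : ℕ) : ℤ)) : ℤ) : ℝ)| ≤ 2 * ((N / 2 : ℕ) : ℝ) + 1 := by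
      cases b
      · simp only [Bool.false_eq_true, if_false, Int.cast_natCast]
        rw [abs_of_nonneg h2]
        linarith
      · simp only [if_true]
        obtain ⟨Z, hZ⟩ : ∃ Z, Z = N / 2 := ⟨_, rfl⟩
        rw [← hZ] at h2 ⊢
        rw [abs_le]
        push_cast
        constructor <;> linarith
    refine h3.trans ?_
    have h4 : (1 : ℝ) ≤ ((N - N / 2 : ℕ) : ℝ) := by
      by_contra h
      push Not at h
      have h5 : N - N / 2 = 0 := by
        have : (N - N / 2 : ℕ) < 1 := by exact_mod_cast h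
        omega
      rw [h5] at hlog
      simp at hlog
      linarith
    rw [pow_one]
    nlinarith

lemma par_lf {N n : ℕ} (b s : Bool) (h : 1 ≤ n) (hN : 2 ≤ N) : Par s (member b (n + N / 2)) ↔ lz (lf N b n) = sg s := by
  rw [← par_iff, lf_eq b h]
  have h1 : ((member b (n + N / 2) : ℕ) : ℤ) ≠ 0 := by
    unfold member
    cases b
    · simp
      omega
    · simp only [if_true]
      omega
  rw [Int.natAbs_natCast]
  unfold Par
  exact ⟨fun h2 => ⟨h1, h2⟩, fun h2 => h2.2⟩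

lemma mem_pos {y N n : ℕ} (h : n ∈ RR y N) : 1 ≤ n := by
  unfold RR at h
  rw [mem_RQ] at h
  exact h.1.1

open Pool.Agent.H373R2.T7 in
lemma locA (N : ℕ) : LocA 2 (QQ N) (QQ N) (QQ N) := by
  intro p hp
  obtain ⟨n, hn⟩ := ex_not ((svq N).lt p (mem_pz.1 hp).2)
  exact ⟨n, 0, hn, by simpa using hn, by simpa using hn⟩

open Pool.Agent.H373R2.T7 in
lemma locD {N h : ℕ} (h6 : 6 ∣ h) : LocD 2 (QQ N) (QQ N) h := by
  intro p hp
  obtain ⟨n, hn⟩ := ex_not ((svq N).lt p (mem_pz.1 hp).2)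
  refine ⟨n, hn, fun h1 => hn ?_⟩
  refine ((svq N).mod ?_).1 h1
  have hpd : p ∣ h := by
    refine dvd_trans ?_ h6
    have hp1 := mem_pz.1 hp
    have h2 := hp1.2.two_le
    have h4 := hp1.1
    interval_cases p
    · norm_num
    · norm_num
    · exact absurd hp1.2 (by norm_num)
  show (h + n) % p = n % p
  obtain ⟨t, ht⟩ := hpd
  rw [ht, add_comm, Nat.add_mul_mod_self_left]

lemma cardR (y N : ℕ) : (pairs y N).card = (RR y N).card :=
  card1 (y := y) (N := N) (fun _ => True) (A := pairs y N) (B := RR y N) (fun q => by simp) (fun n => by simp)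

lemma card2 {y N h : ℕ} (P : ℕ → ℕ → Prop) {A : Finset ℕ} {B : Finset (ℕ × ℕ)}
    (hA : ∀ q, q ∈ A ↔ q ∈ dist y N h ∧ P q (q + h))
    (hB : ∀ t, t ∈ B ↔ t ∈ rep2 (RR y N) (RR y N) (-1) 1 h ∧ P (t.1 + N / 2) (t.2 + N / 2)) : A.card = B.card := by
  classical
  symm
  apply card_bij (fun t _ => t.1 + N / 2)
  · rintro ⟨a, b⟩ hh
    rw [hB] at hh
    unfold rep2 at hh
    rw [mem_filter, mem_product] at hh
    obtain ⟨⟨⟨h1, h2⟩, h3⟩, h4⟩ := hh
    simp only at h1 h2 h3 h4 ⊢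
    have e : a + N / 2 + h = b + N / 2 := by omega
    rw [hA]
    unfold dist
    rw [mem_filter, e]
    exact ⟨⟨mem_pairs.2 h1, mem_pairs.2 h2⟩, h4⟩
  · rintro ⟨a, b⟩ ha ⟨a', b'⟩ ha' hh
    rw [hB] at ha ha'
    unfold rep2 at ha ha'
    rw [mem_filter] at ha ha'
    have h1 := ha.1.2
    have h2 := ha'.1.2
    simp only [Prod.mk.injEq] at hh h1 h2 ⊢
    omega
  · intro q hq
    rw [hA] at hq
    unfold dist at hq
    rw [mem_filter] at hq
    obtain ⟨⟨h1, h2⟩, h3⟩ := hq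
    obtain ⟨n, rfl⟩ := of_mem h1
    have e : n + N / 2 + h = (n + h) + N / 2 := by omega
    rw [e] at h2 h3
    refine ⟨(n, n + h), ?_, rfl⟩
    rw [hB]
    unfold rep2
    rw [mem_filter, mem_product]
    refine ⟨⟨⟨mem_pairs.1 h1, mem_pairs.1 h2⟩, ?_⟩, h3⟩
    simp only
    push_cast
    ring

open Classical in
/-- **Almost prime pairs in every dyadic window.** -/
theorem result : ∃ c C : ℝ, 0 < c ∧ 0 < C ∧ ∃ A : ℕ, 1 ≤ A ∧ ∀ K : ℕ, A ≤ K → ∃ N₀ y₀ : ℕ,
    ∀ N y : ℕ, N₀ ≤ N → y₀ ≤ y → y ^ K ≤ N → ∀ G δ : ℝ, G = ((pairs y N).card : ℝ) → δ = (1 / 2 : ℝ) ^ (K / A) →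
      c * (N / Real.log N ^ 2) ≤ G ∧
      (∀ b s : Bool, |2 * (((pairs y N).filter (fun q => Par s (member b q))).card : ℝ) - G| ≤ δ * G) ∧
      c * (G ^ 3 / N) ≤ ((progs y N).filter (fun t => t.1 < t.2.2)).card ∧
      ((progs y N).card : ℝ) ≤ C * (G ^ 3 / N) ∧
      (∀ b₁ b₂ b₃ s₁ s₂ s₃ : Bool,
        |8 * ((pattern y N b₁ b₂ b₃ s₁ s₂ s₃).card : ℝ) - (progs y N).card| ≤ δ * (progs y N).card) ∧
      (∀ (S₁ S₃ : Finset ℕ) (b : Bool),
        |((within y N S₁ S₃ b true).card : ℝ) - (within y N S₁ S₃ b false).card| ≤ δ * (G ^ 3 / N)) ∧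
      (∀ h : ℕ, 6 ∣ h → 4 * h ≤ N → c * (G ^ 2 / N) ≤ (dist y N h).card) ∧
      ∀ b₁ b₂ : Bool, (((range N).filter (fun h => 6 ∣ h ∧ ∃ s₁ s₂ : Bool,
        δ * (dist y N h).card < |4 * ((distPat y N h b₁ b₂ s₁ s₂).card : ℝ) - (dist y N h).card|)).card : ℝ) ≤
          δ * N := by
  obtain ⟨c1, hc1, H1⟩ := all_F 2 (by norm_num)
  obtain ⟨K1, hK1, H1⟩ := H1 1 one_pos
  obtain ⟨c2, hc2, A2, hA2, H2⟩ := F3apL 2 (by norm_num) 2
  obtain ⟨C3, hC3, K3, hK3, X3, y3, H3⟩ := F3up 2 (by norm_num)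
  obtain ⟨A4, hA4L, hA4, H4⟩ := F3subL 2 (by norm_num) 2 (A2 + K1 + K3)
  obtain ⟨A5, hA5L, hA5, H5⟩ := all_lin 2 (by norm_num) 2 A4
  obtain ⟨c6, hc6, A6, hA6, H6⟩ := F2dL 2 (by norm_num) 2
  obtain ⟨A0, hA0⟩ : ∃ A0, A0 = 2 * (A2 + A4 + A5 + A6 + K1 + K3) := ⟨_, rfl⟩
  obtain ⟨A, hAL, hA0A, hA⟩ := absorb A0 1 2 (by omega) 2 (by norm_num)
  obtain ⟨c, hc⟩ : ∃ c : ℝ, c = min (min (c1 / 2) c2) (c6 / 2) := ⟨_, rfl⟩
  have hcc1 : c ≤ c1 / 2 := by rw [hc]; exact (min_le_left _ _).trans (min_le_left _ _)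
  have hcc2 : c ≤ c2 := by rw [hc]; exact (min_le_left _ _).trans (min_le_right _ _)
  have hcc3 : c ≤ c6 / 2 := by rw [hc]; exact min_le_right _ _
  have hc0 : 0 < c := by rw [hc]; exact lt_min (lt_min (by positivity) hc2) (by positivity)
  refine ⟨c, 2 * C3, hc0, by positivity, A, by omega, fun K hK => ?_⟩
  obtain ⟨K', hK'⟩ : ∃ K', K' = K - 1 := ⟨_, rfl⟩
  obtain ⟨X1, y1, H1⟩ := H1 1
  obtain ⟨X2, y2, H2⟩ := H2 K' (by omega) 1
  obtain ⟨X4, y4, H4⟩ := H4 K' (by omega) 1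
  obtain ⟨X5, y5, H5⟩ := H5 K' (by omega) 1
  obtain ⟨X6, y6, H6⟩ := H6 K' (by omega) 1
  obtain ⟨X7, hX7⟩ := Pool.Agent.H373R2.T7.ev_L' 4
  refine ⟨2 * (X1 + X2 + X3 + X4 + X5 + X6 + X7) + 8, y1 + y2 + y3 + y4 + y5 + y6 + 2, ?_⟩
  intro N y hN hy hyN G δ hG hδ
  obtain ⟨X, hX⟩ : ∃ X, X = N - N / 2 := ⟨_, rfl⟩
  have hXge : X1 + X2 + X3 + X4 + X5 + X6 + X7 + 2 ≤ X := by omega
  have hyX : y ^ K' ≤ X := by
    have h1 : 2 * y ^ K' ≤ N := by
      calc 2 * y ^ K' ≤ y * y ^ K' := Nat.mul_le_mul_right _ (by omega)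
        _ = y ^ K := by
            rw [← pow_succ']
            congr 1
            omega
        _ ≤ N := hyN
    omega
  have hXr : (2 : ℝ) ≤ X := by exact_mod_cast (by omega : 2 ≤ X)
  have hXN : (X : ℝ) ≤ N := by exact_mod_cast (by omega : X ≤ N)
  have hNX : (N : ℝ) ≤ 2 * X := by exact_mod_cast (by omega : N ≤ 2 * X)
  have hlogX : 4 ≤ Real.log (X : ℝ) := hX7 X (by omega)
  have hll : ∀ b, Ll X 1 2 (lf N b) := by
    intro b
    have := lf_ll (N := N) b (by rw [← hX]; exact hlogX)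
    rwa [← hX] at this
  have hsv := svq N
  have hRR : RR y N = RQ (QQ N) X y := by unfold RR; rw [← hX]
  have hGR : G = ((RQ (QQ N) X y).card : ℝ) := by rw [hG, cardR, hRR]
  have hG0 : 0 ≤ G := by rw [hG]; exact Nat.cast_nonneg _
  -- the small numbers
  have hδ0 : 0 < δ := by rw [hδ]; positivity
  have hK2 : 2 ≤ K := by omega
  have hpow : ∀ a : ℕ, 1 ≤ a → 2 * a ≤ A0 → (1 / 2 : ℝ) ^ (K' / a) ≤ (1 / 2 : ℝ) ^ (K / A0) := by
    intro a ha h2
    apply pow_le_pow_of_le_one (by norm_num) (by norm_num)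
    calc K / A0 ≤ K / (2 * a) := Nat.div_le_div_left h2 (by omega)
      _ = K / 2 / a := by rw [Nat.div_div_eq_div_mul]
      _ ≤ K' / a := Nat.div_le_div_right (by omega)
  have hd2 : 2 * (1 / 2 : ℝ) ^ (K / A0) ≤ δ := by
    have := hA K hK
    rw [pow_one] at this
    rwa [hδ]
  have hd1 : (1 / 2 : ℝ) ^ (K / A0) ≤ δ := by
    have : (0 : ℝ) < (1 / 2 : ℝ) ^ (K / A0) := by positivity
    linarith
  have r1 := (H1 _ hsv X y (by omega) (by omega) ((Nat.pow_le_pow_right (by omega) (by omega)).trans hyX)).1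
  have r2 := H2 _ _ _ hsv hsv hsv X y (by omega) (by omega) hyX (locA N)
  have r3 := H3 _ _ _ hsv hsv hsv X y (by omega) (by omega) ((Nat.pow_le_pow_right (by omega) (by omega)).trans hyX)
    1 1 (-2) one_ne_zero one_ne_zero (by norm_num) 0
  have r4 := H4 _ _ _ hsv hsv hsv X y (by omega) (by omega) hyX 1 1 (-2) one_ne_zero one_ne_zero (by norm_num) 0
  have r6 := H6 _ _ hsv hsv X y (by omega) (by omega) hyX
  rw [← hGR] at r1
  rw [← hGR] at r2 r3 r6
  rw [← hGR] at r4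
  rw [← hRR] at r2 r3 r4 r6
  obtain ⟨g, hg⟩ : ∃ g : ℝ, g = G * G * G / X := ⟨_, rfl⟩
  rw [← hg] at r2 r3 r4
  have hg0 : 0 ≤ g := by rw [hg]; positivity
  have hgN : G ^ 3 / N ≤ g := by
    rw [hg]
    have e : G ^ 3 = G * G * G := by ring
    rw [e]
    exact div_le_div_of_nonneg_left (by positivity) (by linarith) hXN
  have hgN2 : g ≤ 2 * (G ^ 3 / N) := by
    rw [hg, ← mul_div_assoc, div_le_div_iff₀ (by linarith) (by linarith)]
    have e : 0 ≤ G * G * G := by positivity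
    nlinarith
  have hprog : ((progs y N).card : ℝ) = ((rep3 (RR y N) (RR y N) (RR y N) 1 1 (-2) 0).card : ℝ) := by
    have := card3 (y := y) (N := N) (fun _ _ _ => True) (A := progs y N)
      (B := rep3 (RR y N) (RR y N) (RR y N) 1 1 (-2) 0) (fun t => by simp) (fun t => by simp)
    exact_mod_cast this
  refine ⟨?_, ?_, ?_, ?_, ?_, ?_, ?_, ?_⟩
  · -- the size
    have hN1 : (2 : ℝ) ≤ N := by linarith
    have hlN : Real.log (X : ℝ) ≤ Real.log N := Real.log_le_log (by linarith) hXN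
    have h1 : (N : ℝ) / Real.log N ^ 2 ≤ 2 * (X / Real.log X ^ 2) := by
      rw [← mul_div_assoc]
      exact div_le_div₀ (by linarith) hNX (by positivity) (pow_le_pow_left₀ (by linarith) hlN 2)
    have h2 : 0 ≤ (N : ℝ) / Real.log N ^ 2 := by positivity
    calc c * (N / Real.log N ^ 2) ≤ c1 / 2 * (N / Real.log N ^ 2) := mul_le_mul_of_nonneg_right hcc1 h2
      _ ≤ c1 / 2 * (2 * (X / Real.log X ^ 2)) := mul_le_mul_of_nonneg_left h1 (by positivity)
      _ = c1 * (X / Real.log X ^ 2) := by ring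
      _ ≤ G := r1
  · intro b s
    obtain ⟨a', b', ha, haa, hb, hl⟩ := hll b
    have h5 := H5 _ hsv X y (by omega) (by omega) hyX a' b' ha haa hb 0
    rw [← hRR] at h5
    have e1 : ∑ n ∈ RR y N, ((lz (a' * n + b') : ℝ) : ℂ) * Pool.Agent.H807R2.Dav.ee (n * 0) =
        ((∑ n ∈ RR y N, lz (lf N b n) : ℝ) : ℂ) := by
      push_cast
      apply sum_congr rfl
      intro n _
      rw [mul_zero, Pool.Agent.H807R2.Dav.ee_zero, mul_one, hl]
    rw [e1, Complex.norm_real, Real.norm_eq_abs] at h5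
    have e2 : ((RR y N).card : ℝ) = G := by rw [hGR, hRR]
    rw [e2] at h5
    have e3 : (((pairs y N).filter (fun q => Par s (member b q))).card : ℝ) = ∑ n ∈ RR y N, ind (sg s) (lf N b n) := by
      rw [card1 (fun q => Par s (member b q)) (B := (RR y N).filter (fun n => lz (lf N b n) = sg s))
        (fun q => by rw [mem_filter]) (fun n => by
          rw [mem_filter]
          constructor
          · rintro ⟨h1, h2⟩
            exact ⟨h1, (par_lf b s (mem_pos h1) (by omega)).2 h2⟩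
          · rintro ⟨h1, h2⟩
            exact ⟨h1, (par_lf b s (mem_pos h1) (by omega)).1 h2⟩)]
      unfold ind
      rw [card_eq_sum_ones, Nat.cast_sum, sum_filter]
      apply sum_congr rfl
      intro n _
      split_ifs <;> simp
    rw [e3, mul_sum]
    have e4 : ∑ n ∈ RR y N, 2 * ind (sg s) (lf N b n) = G + sg s * ∑ n ∈ RR y N, lz (lf N b n) := by
      rw [← e2, card_eq_sum_ones, Nat.cast_sum, mul_sum, ← sum_add_distrib]
      apply sum_congr rfl
      intro n hn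
      rw [ind_eq (sg_cases s)]
      have h1 : lf N b n ≠ 0 := by
        rw [lf_eq b (mem_pos hn)]
        have := mem_pos hn
        unfold member
        cases b
        · simp
          omega
        · simp only [if_true]
          omega
      unfold zr
      rw [if_neg h1]
      push_cast
      ring
    rw [e4, add_sub_cancel_left, abs_mul, sgn_abs (sg_cases s), one_mul]
    refine h5.trans (mul_le_mul_of_nonneg_right ?_ hG0)
    exact (hpow A5 hA5 (by omega)).trans hd1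
  · have h1 := card3 (y := y) (N := N) (fun a _ c => a < c) (A := (progs y N).filter (fun t => t.1 < t.2.2))
      (B := (rep3 (RR y N) (RR y N) (RR y N) 1 1 (-2) 0).filter (fun t => t.1 < t.2.2))
      (fun t => by rw [mem_filter]) (fun t => by
        rw [mem_filter]
        apply and_congr_right
        intro _
        omega)
    have h3 : (((progs y N).filter (fun t => t.1 < t.2.2)).card : ℝ) =
        ((rep3 (RR y N) (RR y N) (RR y N) 1 1 (-2) 0).filter (fun t => t.1 < t.2.2)).card := by exact_mod_cast h1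
    rw [h3]
    refine le_trans ?_ r2.1
    calc c * (G ^ 3 / N) ≤ c2 * (G ^ 3 / N) := mul_le_mul_of_nonneg_right hcc2 (by positivity)
      _ ≤ c2 * g := mul_le_mul_of_nonneg_left hgN hc2.le
  · rw [hprog]
    refine r3.trans ?_
    calc C3 * g ≤ C3 * (2 * (G ^ 3 / N)) := mul_le_mul_of_nonneg_left hgN2 hC3.le
      _ = 2 * C3 * (G ^ 3 / N) := by ring
  · intro b₁ b₂ b₃ s₁ s₂ s₃
    have h := r2.2 (lf N b₁) (lf N b₃) (lf N b₂) (hll b₁) (hll b₃) (hll b₂) _ _ _ (sg_cases s₁) (sg_cases s₃) (sg_cases s₂)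
    rw [pat3L_card] at h
    have e1 : (pattern y N b₁ b₂ b₃ s₁ s₂ s₃).card =
        ((rep3 (RR y N) (RR y N) (RR y N) 1 1 (-2) 0).filter (fun t => lz (lf N b₁ t.1) = sg s₁ ∧
          lz (lf N b₃ t.2.1) = sg s₃ ∧ lz (lf N b₂ t.2.2) = sg s₂)).card := by
      apply card3 (fun a b c => Par s₁ (member b₁ a) ∧ Par s₃ (member b₃ b) ∧ Par s₂ (member b₂ c))
      · intro t
        unfold pattern
        rw [mem_filter]
      · intro t
        rw [mem_filter]
        apply and_congr_right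
        intro ht
        unfold rep3 at ht
        rw [mem_filter, mem_product, mem_product] at ht
        rw [par_lf b₁ s₁ (mem_pos ht.1.1) (by omega), par_lf b₃ s₃ (mem_pos ht.1.2.1) (by omega),
          par_lf b₂ s₂ (mem_pos ht.1.2.2) (by omega)]
    rw [e1, hprog]
    refine h.trans (mul_le_mul_of_nonneg_right ?_ (Nat.cast_nonneg _))
    exact (hpow A2 hA2 (by omega)).trans hd1
  · intro S₁ S₃ b
    have h := r4 (lf N b) (hll b) ((RR y N).filter (fun n => n + N / 2 ∈ S₁)) ((RR y N).filter (fun n => n + N / 2 ∈ S₃))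
    have e3 : ∀ s : Bool, ((within y N S₁ S₃ b s).card : ℝ) =
        ∑ t ∈ (rep3 (RR y N) (RR y N) (RR y N) 1 1 (-2) 0).filter (fun t => t.1 ∈ (RR y N).filter (fun n => n + N / 2 ∈ S₁) ∧
          t.2.1 ∈ (RR y N).filter (fun n => n + N / 2 ∈ S₃)), (if lz (lf N b t.2.2) = sg s then (1 : ℝ) else 0) := by
      intro s
      rw [← sum_filter, filter_filter, sum_const, nsmul_eq_mul, mul_one]
      congr 1
      apply card3 (fun a c d => a ∈ S₁ ∧ c ∈ S₃ ∧ Par s (member b d))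
      · intro t
        unfold within
        rw [mem_filter]
      · intro t
        rw [mem_filter]
        apply and_congr_right
        intro ht
        unfold rep3 at ht
        rw [mem_filter, mem_product, mem_product] at ht
        rw [par_lf b s (mem_pos ht.1.2.2) (by omega), mem_filter, mem_filter]
        constructor
        · rintro ⟨⟨⟨_, q1⟩, _, q2⟩, q3⟩
          exact ⟨q1, q2, q3⟩
        · rintro ⟨q1, q2, q3⟩
          exact ⟨⟨⟨ht.1.1, q1⟩, ht.1.2.1, q2⟩, q3⟩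
    have h2 : |((within y N S₁ S₃ b true).card : ℝ) - (within y N S₁ S₃ b false).card| ≤ (1 / 2 : ℝ) ^ (K' / A4) * g := by
      refine le_trans (le_of_eq ?_) h
      rw [e3, e3, ← sum_sub_distrib, ← abs_neg, ← sum_neg_distrib]
      congr 1
      apply sum_congr rfl
      intro t _
      rcases lz_cases (lf N b t.2.2) with h | h | ⟨h, _⟩ <;> rw [h] <;> norm_num [sg]
    refine h2.trans ?_
    have h3 := hpow A4 hA4 (by omega)
    have h4 : 0 ≤ G ^ 3 / (N : ℝ) := by positivity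
    calc (1 / 2 : ℝ) ^ (K' / A4) * g ≤ (1 / 2 : ℝ) ^ (K / A0) * (2 * (G ^ 3 / N)) :=
          mul_le_mul h3 hgN2 hg0 (by positivity)
      _ = (2 * (1 / 2 : ℝ) ^ (K / A0)) * (G ^ 3 / N) := by ring
      _ ≤ δ * (G ^ 3 / N) := mul_le_mul_of_nonneg_right hd2 h4
  · intro h h6 h4
    have hhX : 2 * h ≤ X := by omega
    have hd : (dist y N h).card = (rep2 (RR y N) (RR y N) (-1) 1 h).card :=
      card2 (y := y) (N := N) (h := h) (fun _ _ => True) (A := dist y N h) (B := rep2 (RR y N) (RR y N) (-1) 1 h)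
        (fun q => by simp) (fun t => by simp)
    have h1 : (1 / 2 : ℝ) * X ≤ ((X - h : ℕ) : ℝ) := by
      have h2 : X ≤ 2 * (X - h) := by omega
      have h3 : (X : ℝ) ≤ 2 * ((X - h : ℕ) : ℝ) := by exact_mod_cast h2
      linarith
    have h2 : (1 / 2 : ℝ) ^ (K' / A6) ≤ 1 / 2 := by
      have h3 : 1 ≤ K' / A6 := (Nat.one_le_div_iff hA6).2 (by omega)
      calc (1 / 2 : ℝ) ^ (K' / A6) ≤ (1 / 2 : ℝ) ^ 1 := pow_le_pow_of_le_one (by norm_num) (by norm_num) h3
        _ = 1 / 2 := by norm_num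
    have h3 := r6.1 h (by omega) (le_trans (mul_le_mul_of_nonneg_right h2 (by linarith)) h1) (locD h6)
    rw [hd]
    refine le_trans ?_ h3
    have h5 : (1 / 2 : ℝ) ≤ ((X - h : ℕ) : ℝ) / X := by
      rw [le_div_iff₀ (by linarith)]
      exact h1
    have h7 : G ^ 2 / (N : ℝ) ≤ G * G / X := by
      have e : G ^ 2 = G * G := by ring
      rw [e]
      exact div_le_div_of_nonneg_left (by positivity) (by linarith) hXN
    have h8 : 0 ≤ G ^ 2 / (N : ℝ) := by positivity
    calc c * (G ^ 2 / N) ≤ c6 / 2 * (G ^ 2 / N) := mul_le_mul_of_nonneg_right hcc3 h8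
      _ ≤ c6 / 2 * (G * G / X) := mul_le_mul_of_nonneg_left h7 (by positivity)
      _ = c6 * (1 / 2) * (G * G / X) := by ring
      _ ≤ c6 * (((X - h : ℕ) : ℝ) / X) * (G * G / X) := by
          apply mul_le_mul_of_nonneg_right _ (by positivity)
          exact mul_le_mul_of_nonneg_left h5 hc6.le
  · intro b₁ b₂
    have h := r6.2 (lf N b₁) (lf N b₂) (hll b₁) (hll b₂)
    have hd : ∀ h : ℕ, (dist y N h).card = (rep2 (RR y N) (RR y N) (-1) 1 h).card := fun h =>
      card2 (y := y) (N := N) (h := h) (fun _ _ => True) (A := dist y N h) (B := rep2 (RR y N) (RR y N) (-1) 1 h)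
        (fun q => by simp) (fun t => by simp)
    have hdp : ∀ (h : ℕ) (s₁ s₂ : Bool), ((distPat y N h b₁ b₂ s₁ s₂).card : ℝ) =
        pat2L (rep2 (RR y N) (RR y N) (-1) 1 h) (lf N b₁) (lf N b₂) (sg s₁) (sg s₂) := by
      intro h s₁ s₂
      rw [pat2L_card]
      congr 1
      apply card2 (fun a b => Par s₁ (member b₁ a) ∧ Par s₂ (member b₂ b))
      · intro q
        unfold distPat
        rw [mem_filter]
      · intro t
        rw [mem_filter]
        apply and_congr_right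
        intro ht
        unfold rep2 at ht
        rw [mem_filter, mem_product] at ht
        rw [par_lf b₁ s₁ (mem_pos ht.1.1) (by omega), par_lf b₂ s₂ (mem_pos ht.1.2) (by omega)]
    have hδ' := (hpow A6 hA6 (by omega)).trans hd1
    refine le_trans ?_ (h.trans (mul_le_mul hδ' hXN (by linarith) hδ0.le))
    rw [Nat.cast_le]
    apply card_le_card
    intro h hh
    rw [mem_filter, mem_range] at hh ⊢
    obtain ⟨h1, h6, s₁, s₂, h7⟩ := hh
    have hhX : h < X := by
      by_contra hge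
      push Not at hge
      have h0 : (dist y N h).card = 0 := by
        rw [card_eq_zero]
        unfold dist
        rw [filter_eq_empty_iff]
        intro q hq hq2
        unfold pairs at hq hq2
        rw [mem_filter, mem_Icc] at hq hq2
        omega
      have h0' : (distPat y N h b₁ b₂ s₁ s₂).card = 0 := by
        have : (distPat y N h b₁ b₂ s₁ s₂).card ≤ (dist y N h).card := by
          unfold distPat
          exact card_filter_le _ _
        omega
      rw [h0, h0'] at h7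
      simp at h7
    refine ⟨hhX, locD h6, sg s₁, sg s₂, sg_cases s₁, sg_cases s₂, ?_⟩
    rw [hdp, hd] at h7
    refine lt_of_le_of_lt ?_ h7
    exact mul_le_mul_of_nonneg_right hδ' (Nat.cast_nonneg _)

end Pool.Agent.Results.MP_39a890_nt.EightPatternsInEveryWindow
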