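import Pool.Agent.H679.DC.Lj

/-!
# Almost primes `p`, `(p + 1) / 2` with prescribed binary digit sum in every interval `[N, 2 N]`

If `p ≡ 1 (mod 4)`, in particular if `p > 3` and `(p + 1) / 2` are both primes, then `p` and `(p + 1) / 2` have the same
binary digit sum `s`. For EVERY large `N` and EVERY value `k` with `ε log₂ N ≤ k ≤ (1 - ε) log₂ N` we find in the
interval `[N, 2 N]` the expected number, up to a constant factor, of `p` with digit sum `s(p) = s((p + 1) / 2) = k` such that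
`p` and `(p + 1) / 2` are almost primes; and this is also an upper bound for the number of the primes `p` with `s(p) = k` and
with `(p + 1) / 2` prime. (About `binom (log₂ N, k)` of the integers up to `2 N` have the digit sum `k`; this
is a small power of `N`, if `ε` is small.)
-/

set_option autoImplicit false

namespace Pool.Agent.Results.MP_39a890_nt.EqualDigitSums

open Filter

/-- the sum of the binary digits -/
def s2 (m : ℕ) : ℕ := (Nat.digits 2 m).sum

/-- `n` has at most `r` prime factors, counted with multiplicity, all of them greater than `Y ^ (1 / r)` -/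
def AlmostPrime (Y r n : ℕ) : Prop := (∀ p : ℕ, p.Prime → p ∣ n → Y < p ^ r) ∧ n.primeFactorsList.length ≤ r

/-- **Almost primes `p`, `(p + 1) / 2` with the same prescribed digit sum in every interval `[N, 2 N]`.** -/
theorem result :
    (∀ p : ℕ, p % 4 = 1 → s2 ((p + 1) / 2) = s2 p) ∧
    ∀ ε : ℝ, 0 < ε → ε ≤ 1 → ∃ r : ℕ, ∃ κ C : ℝ, 0 < κ ∧ 0 < C ∧ ∀ᶠ N : ℕ in atTop, ∀ k : ℕ,
      ε * Nat.log 2 N ≤ k → (k : ℝ) ≤ (1 - ε) * Nat.log 2 N →
      κ * (Nat.log 2 N).choose k / (Nat.log 2 N : ℝ) ^ 2 ≤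
        (Set.ncard {p | N ≤ p ∧ p ≤ 2 * N ∧ s2 p = k ∧ s2 ((p + 1) / 2) = k ∧ AlmostPrime N r p ∧
          AlmostPrime N r ((p + 1) / 2)} : ℝ) ∧
      (Set.ncard {p | N ≤ p ∧ p ≤ 2 * N ∧ s2 p = k ∧ p.Prime ∧ ((p + 1) / 2).Prime} : ℝ) ≤
        C * (Nat.log 2 N).choose k / (Nat.log 2 N : ℝ) ^ 2 := by
  refine ⟨fun p hp => ?_, fun ε hε hε1 => Pool.Agent.H679.DC.half_primes ε hε hε1⟩
  have h1 : p = 2 * (2 * (p / 4)) + 1 := by omega
  have h2 : (p + 1) / 2 = 2 * (p / 4) + 1 := by omega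
  have h3 : Pool.Agent.H679.DC.s2 ((p + 1) / 2) = Pool.Agent.H679.DC.s2 (p / 4) + 1 := by
    rw [h2]
    exact Pool.Agent.H679.DC.s2_add (by norm_num)
  have h4 : Pool.Agent.H679.DC.s2 p = Pool.Agent.H679.DC.s2 (2 * (p / 4)) + 1 := by
    conv_lhs => rw [h1]
    exact Pool.Agent.H679.DC.s2_add (by norm_num)
  have h5 : Pool.Agent.H679.DC.s2 (2 * (p / 4)) = Pool.Agent.H679.DC.s2 (p / 4) :=
    Pool.Agent.H679.DC.s2_add (m := p / 4) (e := 0) (by norm_num)
  exact h3.trans ((congrArg (· + 1) h5).symm.trans h4.symm)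

end Pool.Agent.Results.MP_39a890_nt.EqualDigitSums
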