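import Mathlib
import Pool.Agent.H534.NW.ExpD
import Pool.Agent.H534.NW.ShortW

/-!
# Primes `q` of `(x, 2 x]` for which `2 q - 1` has at most three prime factors, and almost prime pairs `q`, `2 q - 1`
# in all short intervals, at all the places of every narrow shape

`p = 2 q - 1` is the prime of the problem, `q = (p + 1) / 2`.  Let `S` be the set of the primes `q` of `(x, 2 x]`
for which `2 q - 1` has at most three prime factors, all larger than `x ^ (1 / 5)`, or the set of the `q` of an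
interval `(x, x + H]`, `x ^ ε ≤ H ≤ x`, for which `q` and `2 q - 1` are almost primes.  Then every subset `A` of `S`
of positive relative density contains constellations `n, n + D b_1, ..., n + D b_k` of EVERY shape
`b_1, ..., b_k`, with the right number (up to powers of `log log x`) of them for a positive proportion
of the multiples `D = W d`, `d ≤ X`, for all `X` from a power of `log x` up to `(H / (W b_j)) ^ (1 / 3)`.
The modulus `W = WS σ b H` is small: it is the product of the primes `p ≤ (log H) ^ (1 - σ)` such that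
`p ≤ log log H` or two of the numbers `0, b_1, ..., b_k` are congruent modulo `p`.

Proof.  `Pool.Agent.H534.NW`: the relative multidimensional Szemerédi theorem for shapes of polynomial size, by
densification and the linear forms conditions for a majorant of Selberg type; since `W` is free of most primes,
the correlations are only controlled outside of few positions, by a large deviation inequality for the primes
dividing collisions.  The number of the primes `q` with `2 q - 1 = P_3` is a weighted sieve of the library, the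
number of the pairs in short intervals the fundamental lemma.
-/

set_option autoImplicit false

open Finset Filter Polynomial

namespace Pool.Agent.Results.MP_39a890_nt.PairsAtEveryShape

open Pool.Agent.H534.NW (WS Shapes)

/-- `n` has at most `r` prime factors, counted with multiplicity, and all of them are larger than `y` -/
def AlmostPrime (r : ℕ) (y : ℝ) (n : ℕ) : Prop :=
  n.primeFactorsList.length ≤ r ∧ ∀ p : ℕ, p.Prime → p ∣ n → y < (p : ℝ)

open Classical in
/-- the primes `q` of `(x, 2 x]` for which `2 q - 1` has at most three prime factors, all larger than `x ^ (1 / 5)` -/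
noncomputable def Three (x : ℕ) : Finset ℕ :=
  (Ioc x (2 * x)).filter (fun q => q.Prime ∧ AlmostPrime 3 ((x : ℝ) ^ (1 / (5 : ℝ))) (2 * q - 1))

open Classical in
/-- the integers `q` of `(Y, Y + H]` for which `q` and `2 q - 1` have at most `r` prime factors, all larger than
`y` -/
noncomputable def Pairs (r : ℕ) (y : ℝ) (Y H : ℕ) : Finset ℕ :=
  (Ioc Y (Y + H)).filter (fun q => AlmostPrime r y q ∧ AlmostPrime r y (2 * q - 1))

lemma adm2 : ∀ p : ℕ, p.Prime → ∃ m : ℕ, ¬ p ∣ m ∧ ¬ (p : ℤ) ∣ ((2 : ℕ) : ℤ) * (m : ℤ) + (-1) := by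
  intro p hp
  refine ⟨1, fun h => hp.one_lt.ne' (Nat.dvd_one.1 h), fun h => ?_⟩
  have h1 : (p : ℤ) ∣ 1 := by
    simpa using h
  have := Int.le_of_dvd one_pos h1
  have h2 : (2 : ℤ) ≤ p := by exact_mod_cast hp.two_le
  omega

lemma cop2 : IsCoprime ((2 : ℕ) : ℤ) (-1) := ⟨0, -1, by norm_num⟩

lemma cast2 (m : ℕ) (hm : 1 ≤ m) : ((2 : ℕ) : ℤ) * (m : ℤ) + (-1) = ((2 * m - 1 : ℕ) : ℤ) := by
  rw [Nat.cast_sub (by omega)]
  push_cast
  ring

/-- **Every narrow shape.** Let `k ≥ 1` and `κ > 0`.  `Shapes k 2 c σ L H A` means: for all `X ≥ (log H) ^ L` and ALL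
distinct `b_1, ..., b_k ≥ 1` with `b_j W X ^ 3 ≤ H`, where `W = WS σ b H`, at least `c X` of the `d ≤ X` are such that
with `D = W d` at least `c H / (log H) ^ (2 (k + 1))` elements `n` of `A` have `n + D b_1, ..., n + D b_k` in `A`.
(1) For large `x` the set `Three x` of the primes `q` of `(x, 2 x]` for which `2 q - 1` has at most three prime
factors, all larger than `x ^ (1 / 5)`, has at least `c₀ x / (log x) ^ 2` elements, and every subset of it of relative
density `≥ κ` has the property `Shapes k 2 c σ L x`.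
(2) The same is true (with `H` in place of `x`), for large `r`, every `E` and all `H ≤ Y ≤ H ^ E`, for the set
`Pairs` of the integers `q` of the short interval `(Y, Y + H]` for which `q` and `2 q - 1` have at most `(E + 1) r`
prime factors, all larger than `H ^ (1 / r)`. -/
theorem result :
    ((∃ c₀ : ℝ, 0 < c₀ ∧ ∀ᶠ x : ℕ in atTop, c₀ * (x / Real.log x ^ 2) ≤ (Three x).card) ∧
      ∀ (k : ℕ) (κ : ℝ), 1 ≤ k → 0 < κ → ∃ c σ : ℝ, 0 < c ∧ 0 < σ ∧ σ ≤ 1 / 2 ∧ ∃ L : ℕ, ∀ᶠ x : ℕ in atTop,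
      ∀ A ⊆ Three x, κ * ((Three x).card : ℝ) ≤ A.card → Shapes k 2 c σ L x A) ∧
    (∃ r₀ : ℕ, 2 ≤ r₀ ∧ ∀ r : ℕ, r₀ ≤ r →
      (∃ c₀ : ℝ, 0 < c₀ ∧ ∀ E : ℕ, ∀ᶠ H : ℕ in atTop, ∀ Y : ℕ, H ≤ Y → Y ≤ H ^ E →
        c₀ * (H / Real.log H ^ 2) ≤ (Pairs ((E + 1) * r) ((H : ℝ) ^ (1 / (r : ℝ))) Y H).card) ∧
      ∀ (k E : ℕ) (κ : ℝ), 1 ≤ k → 0 < κ → ∃ c σ : ℝ, 0 < c ∧ 0 < σ ∧ σ ≤ 1 / 2 ∧ ∃ L : ℕ, ∀ᶠ H : ℕ in atTop,
      ∀ Y : ℕ, H ≤ Y → Y ≤ H ^ E →
      ∀ A ⊆ Pairs ((E + 1) * r) ((H : ℝ) ^ (1 / (r : ℝ))) Y H,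
      κ * ((Pairs ((E + 1) * r) ((H : ℝ) ^ (1 / (r : ℝ))) Y H).card : ℝ) ≤ A.card → Shapes k 2 c σ L H A) := by
  classical
  refine ⟨⟨?_, fun k κ hk hκ => ?_⟩, ?_⟩
  · obtain ⟨κ, hκ, hN⟩ := Pool.Agent.H534.RT.cntL 2 (-1) (by norm_num) cop2 (by simp) (by norm_num) adm2
    refine ⟨κ, hκ, ?_⟩
    filter_upwards [hN] with x hx
    rw [← mul_div_assoc]
    refine hx.trans ?_
    unfold Pool.Agent.TH977.PW.N
    apply Nat.cast_le.2
    apply card_le_card
    intro n hn
    rw [mem_filter] at hn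
    unfold Three
    rw [mem_filter]
    obtain ⟨h1, h2, h3, h4⟩ := hn
    have e : (((2 : ℕ) : ℤ) * n + (-1)).toNat = 2 * n - 1 := by
      rw [cast2 n h2.one_le, Int.toNat_natCast]
    rw [e] at h3 h4
    refine ⟨h1, h2, h4, fun p hp hd => lt_of_le_of_lt ?_ (h3 p hp hd)⟩
    exact Real.rpow_le_rpow (by positivity) (by exact_mod_cast (mem_Ioc.1 h1).1.le) (by norm_num)
  · obtain ⟨c, σ, hc, hσ, hσ2, h⟩ := Pool.Agent.H534.NW.linN3d 2 (-1) (by norm_num) cop2 (by simp) (by norm_num) adm2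
      (fun n => 2 * n - 1) (fun m hm => cast2 m (by omega)) k hk κ hκ
    obtain ⟨L, h⟩ := h σ hσ le_rfl
    refine ⟨c, σ, hc, hσ, hσ2, L, ?_⟩
    filter_upwards [h] with x hx A hA hAc
    have e : Three x = (Ioc x (2 * x)).filter (Pool.Agent.H534.RT.EP (fun m => 2 * m - 1) 3 5 x) := by
      ext y
      unfold Three
      rw [mem_filter, mem_filter]
      rfl
    rw [e] at hA hAc
    exact hx A hA hAc
  · have hs := Pool.Agent.Y677.KP.sys_two (Pool.Agent.W182.PW.lin 2 (-1))
      (Pool.Agent.W182.PW.lin_irr 2 (-1) (by norm_num) cop2) (Pool.Agent.W182.PW.lin_deg 2 (-1) (by norm_num))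
      (Pool.Agent.W182.PW.lin_lead 2 (-1) (by norm_num)) (Pool.Agent.W182.PW.lin_ne_X (by simp)).symm
      (fun p hp => by
        obtain ⟨m, h1, h2⟩ := adm2 p hp
        exact ⟨m, h1, by rwa [Pool.Agent.W182.PW.lin_eval]⟩)
    obtain ⟨r₀, hr₀, hm, hcount⟩ := Pool.Agent.H534.NW.shortF2 _ hs (by norm_num)
    refine ⟨r₀, hr₀, fun r hr => ?_⟩
    have hr0 : (0 : ℝ) < r := by exact_mod_cast (by omega : 0 < r)
    -- the set in terms of the values of the polynomials
    have hkey : ∀ E : ℕ, ∀ᶠ H : ℕ in atTop, ∀ Y : ℕ, H ≤ Y → Y ≤ H ^ E → ∀ n ∈ Ioc Y (Y + H),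
        (n ∈ Pairs ((E + 1) * r) ((H : ℝ) ^ (1 / (r : ℝ))) Y H ↔ ∀ i, ∀ q : ℕ, q.Prime →
          (q : ℝ) ≤ (H : ℝ) ^ (1 / (r : ℝ)) →
          ¬ (q : ℤ) ∣ (Pool.Agent.Y677.KP.two (Pool.Agent.W182.PW.lin 2 (-1)) i).eval (n : ℤ)) := by
      intro E
      filter_upwards [eventually_ge_atTop 4, Pool.Agent.H534.RT.len_ev (E + 1) r (by omega) (by omega)]
        with H hH4 hlen Y hHY hY n hn
      obtain ⟨hn1, hn2⟩ := mem_Ioc.1 hn
      have hnone : 1 ≤ n := by omega
      have hdv : ∀ q : ℕ, (q : ℤ) ∣ (Pool.Agent.W182.PW.lin 2 (-1)).eval (n : ℤ) ↔ q ∣ 2 * n - 1 := by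
        intro q
        rw [Pool.Agent.W182.PW.lin_eval, cast2 n hnone, Int.natCast_dvd_natCast]
      have hdX : ∀ q : ℕ, (q : ℤ) ∣ (X : ℤ[X]).eval (n : ℤ) ↔ q ∣ n := by
        intro q
        rw [eval_X, Int.natCast_dvd_natCast]
      have hsz : 2 * n ≤ H ^ (E + 1) := by
        calc 2 * n ≤ 2 * (H ^ E + H ^ E) := by
              have : H ≤ H ^ E := hHY.trans hY
              omega
          _ = 4 * H ^ E := by ring
          _ ≤ H * H ^ E := Nat.mul_le_mul_right _ hH4
          _ = H ^ (E + 1) := by ring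
      unfold Pairs
      rw [mem_filter]
      unfold AlmostPrime
      constructor
      · rintro ⟨-, ⟨-, h2⟩, -, h4⟩ i q hq hqH
        fin_cases i
        · show ¬ (q : ℤ) ∣ (X : ℤ[X]).eval (n : ℤ)
          rw [hdX]
          intro hd
          have := h2 q hq hd
          linarith
        · show ¬ (q : ℤ) ∣ (Pool.Agent.W182.PW.lin 2 (-1)).eval (n : ℤ)
          rw [hdv]
          intro hd
          have := h4 q hq hd
          linarith
      · intro h
        have h2 : ∀ q : ℕ, q.Prime → q ∣ n → (H : ℝ) ^ (1 / (r : ℝ)) < q := by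
          intro q hq hd
          by_contra hcon
          rw [not_lt] at hcon
          exact h 0 q hq hcon ((hdX q).2 hd)
        have h4 : ∀ q : ℕ, q.Prime → q ∣ 2 * n - 1 → (H : ℝ) ^ (1 / (r : ℝ)) < q := by
          intro q hq hd
          by_contra hcon
          rw [not_lt] at hcon
          exact h 1 q hq hcon ((hdv q).2 hd)
        exact ⟨hn, ⟨hlen n (by omega) (by omega) h2, h2⟩, hlen (2 * n - 1) (by omega) (by omega) h4, h4⟩
    refine ⟨?_, fun k E κ hk hκ => ?_⟩
    · obtain ⟨c₀, hc₀, h⟩ := hcount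
      refine ⟨c₀, hc₀, fun E => ?_⟩
      filter_upwards [h r hr, hkey E] with H h1 h2 Y hHY hY
      refine (h1 Y hHY).trans ?_
      apply Nat.cast_le.2
      apply card_le_card
      intro n hn
      rw [mem_filter] at hn
      exact (h2 Y hHY hY n hn.1).2 hn.2
    · obtain ⟨c, σ, hc, hσ, hσ2, h⟩ := hm r hr k E κ hk hκ
      obtain ⟨L, h⟩ := h σ hσ le_rfl
      refine ⟨c, σ, hc, hσ, hσ2, L, ?_⟩
      filter_upwards [h, hkey E] with H h1 h2 Y hHY hY A hA hAc
      refine h1 Y hHY hY _ (fun n hn hrn => (h2 Y hHY hY n hn).2 hrn) (fun n hn => ?_) A hA hAc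
      have hn1 : n ∈ Ioc Y (Y + H) := (mem_filter.1 (by unfold Pairs at hn; exact hn)).1
      exact ⟨hn1, (h2 Y hHY hY n hn1).1 hn⟩

end Pool.Agent.Results.MP_39a890_nt.PairsAtEveryShape
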