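import Pool.Agent.H579.R.TupXR
import Pool.Agent.H579.R.Reg

/-!
# Primes `m` for which `q m + b` is also a prime, in all windows: the formula of Hardy and Littlewood for almost all `b` and
# individual large slopes `q ≤ M ^ (2 - ε)`

The question asks for primes `p` in every window `[N, 2 N]` for which `(p + 1) / 2` is also a prime: pairs of primes `m`
and `2 m - 1`. We study the pairs of primes `m` and `q m + b` (and the systems `m, q_1 m + b_1, ..., q_k m + b_k`) in
ALL windows `(y_1, y_2]` with `y_2 ≤ M`. The slope `q` is given, and it may be much larger than `M`: the only condition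
on its size is `q ^ (1 / 2 + ρ) ≤ M`, so `q ≤ M ^ (2 - ε)`. For all but `q M / (log M) ^ A` of the constant terms
`1 ≤ b ≤ q M` we prove the asymptotic formula

  `∑_{m ≤ y, m and q m + b prime} log m log (q m + b) = 𝔖(q, b) y + O(M / (log M) ^ A)` for all `y ≤ M`

with the singular series of Hardy and Littlewood. Hence for these `b` every window `(y_1, y_2]`, `y_2 ≤ M`, with
`𝔖(q, b) (y_2 - y_1) > 2 M / (log M) ^ A` contains a prime `m` for which `q m + b` is a prime, in particular all the
windows `(y, 2 y]` with `y ≥ M / (log M) ^ (A / 2)` and `𝔖(q, b) ≠ 0` (then `𝔖(q, b)` is at least a constant).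

The slopes have to be regular: not divisible by a member of a set `D` of at most `(log x) ^ c` integers (`x = q M`), the
RADICALS of which are larger than any given power of `log x`. In particular there is NO condition on slopes whose radical
is at most a power of `log M`, for instance `q = 2 ^ j`. For the other slopes some condition of this kind is necessary
with present knowledge (Siegel zeros).

Proof. The sum of the squares of `|∑_{n ≡ l (mod q)} (Λ - sieve model)(n) e(β n)|` over ALL residue classes `l` modulo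
`q ≤ x ^ (2 / 3 - ρ)` is at most `x ^ 2 / (q (log x) ^ A)` (`G/PG4`; the input are the library's mean squares for
characters `R460/GH`, a count of the exceptional characters `G/CntL` and, for the conductors with a small radical,
Postnikov's formula and Vinogradov's method, `H567/PP`, `R/PG4R`). Parseval's identity for the function
supported on the multiples `q m` shows that `∑_m w(m) (Λ - sieve model)(q m + b)` is small for almost all `b`, for
ARBITRARY weights `w` (`G/WtFm`). The primes `q_i m + b_i` are replaced one after the other by their sieve models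
(`G/Multi2`, `G/TupW`); the main term at the primes `m ≤ y` is evaluated by the fundamental lemma and the theorem of
Bombieri and Vinogradov (library `H373R2/T7`; `G/MainFm`, `G/MainY`), and a grid of values of `y` gives all windows
(`G/TupX`).
-/

set_option autoImplicit false

namespace Pool.Agent.Results.MP_39a890_nt.PrimePairsInAllWindows

open Finset

/-- the radical of `d`: the product of the primes dividing `d` -/
def rad (d : ℕ) : ℕ := ∏ p ∈ d.primeFactors, p

/-- the sum of `log m ∏ log (q i * m + b i)` over the primes `m ≤ y` for which all `q i * m + b i` are primes -/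
noncomputable def primeSum {k : ℕ} (q b : Fin k → ℕ) (y : ℕ) : ℝ :=
  ∑ m ∈ (Icc 1 y).filter (fun m : ℕ => m.Prime ∧ ∀ i, (q i * m + b i).Prime),
    Real.log m * ∏ i, Real.log (q i * m + b i : ℕ)

/-- the number of the residue classes `m` modulo `p` for which `m` or one of the `q i * m + b i` is divisible by `p` -/
noncomputable def classes {k : ℕ} (q b : Fin k → ℕ) (p : ℕ) : ℕ :=
  Set.ncard {m : ℕ | m < p ∧ (p ∣ m ∨ ∃ i, p ∣ q i * m + b i)}

/-- the singular series of Hardy and Littlewood of the system `m, q i * m + b i` -/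
noncomputable def singular {k : ℕ} (q b : Fin k → ℕ) : ℝ :=
  ∏' p : Nat.Primes, (1 - (classes q b p : ℝ) / (p : ℕ)) / (1 - 1 / ((p : ℕ) : ℝ)) ^ (k + 1)

theorem singular_eq {k : ℕ} (q b : Fin k → ℕ) :
    Pool.Agent.H579.G.sing (Pool.Agent.H579.G.cons1 fun i => (q i : ℤ))
      (Pool.Agent.H579.G.cons0 fun i => (b i : ℤ)) = singular q b := by
  classical
  unfold Pool.Agent.H579.G.sing singular
  congr 1
  funext p
  unfold Pool.Agent.H579.G.fac
  have e : Pool.Agent.H373R2.T7.nuB (Pool.Agent.H579.G.Qf (Pool.Agent.H579.G.cons1 fun i => (q i : ℤ))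
      (Pool.Agent.H579.G.cons0 fun i => (b i : ℤ))) p = classes q b p := by
    unfold Pool.Agent.H373R2.T7.nuB classes
    rw [← Set.ncard_coe_finset]
    congr 1
    ext m
    rw [Finset.mem_coe, Finset.mem_filter, Finset.mem_range, Set.mem_ofPred_eq, Pool.Agent.H579.G.Qf_cons]
    refine and_congr_right fun _ => or_congr_right (exists_congr fun i => ?_)
    rw [← Int.natCast_dvd_natCast (m := p)]
    push_cast
    exact Iff.rfl
  rw [e]

theorem primeSum_eq {k : ℕ} (q b : Fin k → ℕ) (y : ℕ) :
    Pool.Agent.H579.G.fsum q (fun i => (b i : ℤ)) y = primeSum q b y := by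
  classical
  unfold Pool.Agent.H579.G.fsum primeSum
  rw [sum_filter]
  refine sum_congr rfl fun m _ => ?_
  unfold Pool.Agent.H579.G.thp
  simp only [Int.toNat_natCast]
  by_cases h1 : m.Prime
  · by_cases h2 : ∀ i, (q i * m + b i).Prime
    · rw [if_pos h1, if_pos ⟨h1, h2⟩]
      congr 1
      exact prod_congr rfl fun i _ => if_pos (h2 i)
    · rw [if_neg (c := m.Prime ∧ ∀ i, (q i * m + b i).Prime) fun h3 => h2 h3.2]
      push Not at h2
      obtain ⟨i, hi⟩ := h2
      rw [prod_eq_zero (mem_univ i) (if_neg hi), mul_zero]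
  · rw [if_neg h1, if_neg fun h3 => h1 h3.1, zero_mul]

/-- **Prime pairs `m`, `q m + b` (and prime values of systems at primes) in all windows.** For all `k ≥ 1` (`k = 1`:
pairs), `ρ > 0` and `A` there is `c` such that for all `B` there are `x₀` and sets `D x`, for `x ≥ x₀` consisting of at
most `(log x) ^ c` integers, all of them with a radical larger than `(log x) ^ B`, such that for all `M ≥ x₀` and all
slopes `q_1, ..., q_k` with `q_i ^ (1 / 2 + ρ) ≤ M` which have a radical `≤ (log (q_i M)) ^ B` or are not divisible by a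
member of `D (q_i M)`: all but at most
`∏ (q_i M) / (log M) ^ A` of the tuples `b`, `1 ≤ b_i ≤ q_i M`, for which the forms `q_i m + b_i` are pairwise not
proportional, satisfy `|primeSum q b y - singular q b * y| ≤ M / (log M) ^ A` for ALL `y ≤ M`. -/
theorem result (k : ℕ) (hk : 1 ≤ k) (ρ : ℝ) (hρ : 0 < ρ) (A : ℕ) :
    ∃ c : ℕ, ∀ B : ℕ, ∃ x₀ : ℕ, ∃ D : ℕ → Finset ℕ,
      (∀ x : ℕ, x₀ ≤ x → ((D x).card : ℝ) ≤ Real.log x ^ c ∧ ∀ d ∈ D x, Real.log x ^ B < (rad d : ℝ)) ∧
      ∀ M : ℕ, x₀ ≤ M → ∀ q : Fin k → ℕ,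
        (∀ i, 1 ≤ q i ∧ (q i : ℝ) ^ (1 / 2 + ρ) ≤ M ∧
          ((rad (q i) : ℝ) ≤ Real.log (q i * M : ℕ) ^ B ∨ ∀ d ∈ D (q i * M), ¬ d ∣ q i)) →
        ({b : Fin k → ℕ | (∀ i j, i ≠ j → q i * b j ≠ q j * b i) ∧ (∀ i, 1 ≤ b i ∧ b i ≤ q i * M) ∧
          ¬ ∀ y : ℕ, y ≤ M → |primeSum q b y - singular q b * y| ≤ M / Real.log M ^ A}.ncard : ℝ) ≤
            (∏ i, ((q i : ℝ) * M)) / Real.log M ^ A := by
  classical
  obtain ⟨c, h1⟩ := Pool.Agent.H579.R.tupXR k hk (ρ := min ρ 1) (lt_min hρ one_pos) (min_le_right _ _) A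
  refine ⟨c, fun B => ?_⟩
  obtain ⟨x₀, D, hD, h2⟩ := h1 B
  refine ⟨x₀, D, hD, fun M hM q hq => ?_⟩
  obtain ⟨U, hU⟩ : ∃ U : Set (Fin k → ℕ), U = {b : Fin k → ℕ | (∀ i j, i ≠ j → q i * b j ≠ q j * b i) ∧
    (∀ i, 1 ≤ b i ∧ b i ≤ q i * M) ∧
    ¬ ∀ y : ℕ, y ≤ M → |primeSum q b y - singular q b * y| ≤ M / Real.log M ^ A} := ⟨_, rfl⟩
  rw [← hU]
  have hfin : U.Finite := by
    refine Set.Finite.subset (Fintype.piFinset (fun i : Fin k => Finset.Icc 1 (q i * M))).finite_toSet ?_
    intro b hb
    rw [hU] at hb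
    rw [Finset.mem_coe, Fintype.mem_piFinset]
    intro i
    exact Finset.mem_Icc.2 (hb.2.1 i)
  have hinj : Set.InjOn (fun (b : Fin k → ℕ) => (fun i => (b i : ℤ))) (hfin.toFinset : Set (Fin k → ℕ)) := by
    intro b _ b' _ h
    funext i
    have := congrFun h i
    simp only at this
    exact_mod_cast this
  rw [Set.ncard_eq_toFinset_card U hfin, ← card_image_of_injOn hinj]
  refine h2 M hM q (fun i => ⟨(hq i).1, ?_, Pool.Agent.H579.R.reg_of_rad (hq i).1
    (hD (q i * M) (hM.trans (Nat.le_mul_of_pos_left M (hq i).1))).2 (hq i).2.2⟩) _ (fun b hb => ?_) (fun b hb => ?_)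
  · have hq1 : (1 : ℝ) ≤ q i := by exact_mod_cast (hq i).1
    refine le_trans (Real.rpow_le_rpow_of_exponent_le hq1 ?_) (hq i).2.1
    have := min_le_left ρ 1
    linarith
  · rw [mem_image] at hb
    obtain ⟨b', hb', rfl⟩ := hb
    have e1 := hfin.mem_toFinset.1 hb'
    rw [hU] at e1
    refine ⟨fun i j hij => ?_, fun i => ?_⟩
    · have := e1.1 i j hij
      simp only
      exact_mod_cast this
    · have := e1.2.1 i
      simp only
      exact_mod_cast this
  · rw [mem_image] at hb
    obtain ⟨b', hb', rfl⟩ := hb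
    have e1 := hfin.mem_toFinset.1 hb'
    rw [hU] at e1
    obtain ⟨-, -, e3⟩ := e1
    push Not at e3
    obtain ⟨y, hy, hy2⟩ := e3
    refine ⟨y, hy, ?_⟩
    rw [primeSum_eq, singular_eq]
    exact hy2

end Pool.Agent.Results.MP_39a890_nt.PrimePairsInAllWindows
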